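import Pool.Agent.UNC.All
import Pool.Agent.MldX.UnBridge

set_option autoImplicit false

/-!
# MP_fa3f7f_ag: the ascending chain condition for minimal log discrepancies of quotients

`unMld n N D` is the set of the minimal log discrepancies of the triples
`(y ∈ Y, B', ∏ 𝔟_i^{s_i})` of dimension `n` such that `Y = X / G`, `G` is a finite group of
automorphisms of a normal affine variety `X` which fix a point `x` over `y`, the crepant pullback
`(X, B, ∏ 𝔞_j^{r_j})` is log canonical at `x`, and for every `g ∈ G` one of the following conditions
holds.

(1) Near `x` the variety `X` is a complete intersection in an affine space which is Newton
nondegenerate, with `(1, …, 1)` in the interior of the Newton polyhedron of the product of the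
equations, the coordinates `x_j` are eigenfunctions of `g` and the equations are semi-invariant;
`B = ∑ b_j div(x_j)` and the ideals `𝔞_j` are monomial in the coordinates, and the nonzero
coefficients `b_j` and the nonzero exponents `r_j` belong to `D`; the dimension of the affine space is
at most `N` or the equations have no linear terms.

(2) The element `g` normalises a torus of dimension `n` which acts on `X` with `x` as attractive fixed
point and leaves `B ≥ 0` and the ideals `𝔞_j` invariant, and the nonzero coefficients of `B` and the
nonzero exponents `r_j` belong to `D`.

(3) The element `g` commutes with a torus of dimension at least `n - 1` which acts on `X` (`x` is any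
closed point) and leaves `B ≥ 0` and the ideals `𝔞_j` invariant, the ideals are generated by
`g`-invariant functions, and the nonzero coefficients of `B` and the nonzero exponents `r_j` belong to
`D`.

If `D` satisfies the descending chain condition then `unMld n N D` satisfies the ascending chain
condition. For `G = 1` the third condition describes all triples with a torus action of complexity at
most one.
-/

namespace Pool.Agent.Results.MP_fa3f7f_ag.QuotientACC

open MldX

theorem result (n N : ℕ) (D : Set ℝ) (hD : D.IsWF) (x : ℕ → ℝ) (hx : ∀ k, x k ∈ unMld n N D) :
    ¬ StrictMono x :=
  UNC.unMld_acc n (max N (2 * n)) D hD x fun k => unMld_subset n N D (hx k)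

end Pool.Agent.Results.MP_fa3f7f_ag.QuotientACC
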