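import Pool.Agent.RMT.AsmC
import Pool.Agent.FNC.AsmF

set_option autoImplicit false

/-!
# MP_fa3f7f_ag: the minimal model conjecture for complete intersections in torus bundles and for abelian
covers of families of complete intersections in products of projective spaces

**Part (I).** Let `B` be a projective variety with terminal singularities, `M_1, …, M_n` line bundles on
`B` with divisors `D_1, …, D_n`, and `E` the complement of the zero sections in `M_1 ⊕ … ⊕ M_n`, a
principal bundle over `B` with the group `(ℂ^*)^n`. Let `f_1, …, f_r` be Laurent polynomials on the fibres
of `E` with values in line bundles `L_1, …, L_r` on `B`, with arbitrary Newton polytopes, and `Z` an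
irreducible component of `f_1 = … = f_r = 0` in `E` which dominates `B`, of dimension
`dim B + n - r > 0`. Suppose that the system is nondegenerate at infinity, and that over every chart of
`B` it is nondegenerate, or generates the ideal of `Z` near `Z` and `Z` has terminal singularities.
Suppose that

* `K_B` is nef and the `D_k` are numerically trivial, or every effective Cartier divisor on `B` is nef,
  or the `L_i + ⟨a, D⟩` are nef for all exponents `a` of `f_i` (the coefficient of `x^a` in `f_i` is a
  section of this divisor), or
* the Fine interior of the sum of the Newton polytopes is not empty, and `K_B + L_1 + … + L_r + ⟨m, D⟩`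
  is nef for all rational points `m` of it.

Then `Z` is birational to a projective variety `Y` with terminal singularities such that either
(a) the canonical divisor of `Y` is nef, and semiample under the corresponding hypothesis on `B`, or
(b) `Y` is a Mori fibre space, and the Fine interior is empty.

**Part (II)** (proved from part (I)). Let `B` be a projective variety with terminal singularities
(a point, for example) with nef canonical divisor, `g_1, …, g_r` sections of the line bundles
`L_i ⊠ O(e_i)` on `B × ℙ^(N_1) × … × ℙ^(N_k)` whose coefficients have no common zeros on `B`, and
`h_1, …, h_q` sections of line bundles `M_a ⊠ O(d_a)`, `M_a` nef. Suppose that over the smooth locus of `B`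
the complete intersection `Z = {g_1 = … = g_r = 0}` is smooth of codimension `r` and the divisors
`D_a = Z ∩ {h_a = 0}` on it are smooth with normal crossings, and that the fibres of `Z` and of the `D_a`
over the other points of `B` (if there are any) are given by one such system over `ℂ`. Let `X → Z'` be a
finite cover of an irreducible component `Z'` of `Z` which dominates `B`, such that the extension of the
function fields is generated by functions `w_c`, `w_c ^ m_c = γ_c ∏_a h_a ^ κ_(c, a)`, with rational functions
`γ_c` on `B`, and unramified outside the `D_a` (it is abelian). Then `X` is birational to a projective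
variety `Y` with terminal singularities such that either the canonical divisor of `Y` is nef, and
semiample if `K_B` and the `M_a` are semiample, or `Y` is a Mori fibre space.

For example, `X` can be any quotient `(C_1 × … × C_n) / G` of a product of curves by a finite abelian
group `G` which acts on each of the curves: let `G_i` be the image of `G` in the automorphism group of
`C_i`; `B` is the product of the quotients `C_i / G_i` of positive genus, the other `C_i / G_i` are
projective lines, `Z = B × (ℙ^1)^k`, and the `D_a` are the fibres over the branch points. If `B` is a point
then `Z` is a smooth complete intersection in a product of projective spaces. The singularities of `X`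
(normal) over the `D_a` are quotient singularities, in general not canonical, so `K_Y` is in general not
the pull back of `K_X`; for example `w^3 = ∏_i (t_i - a_i)(t_i - b_i)(t_i - c_i)^2 (t_i - d_i)^2` has `K_X`
ample but Kodaira dimension one.
-/

namespace Pool.Agent.Results.MP_fa3f7f_ag.RelativeMinimalModels

open MMCI MMCX RMX NCC FNC

/-- Part (I): `F` is the function field of `B`, `b = dim B`; `t` are the trivializations of `E` over the
charts of `B`; `K` is the function field of `Z`, `b + e = dim Z`, and `x` are the coordinates of the
generic point of `Z`. Part (II): `F` is the function field of `B`, `b = dim B`; `σ` are the equations of the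
`M_a` and `G j`, `H j` the polynomials `g`, `h` over the charts of `B`; `K` is the function field of `X`,
`b + n = dim X`, and `x` are the homogeneous coordinates of the generic point of `Z'`. -/
theorem result :
    (∀ {b e n r : ℕ} {F K : Type} [Field F] [Field K] [Algebra ℂ F] [Algebra ℂ K]
      [Algebra F K] [IsScalarTower ℂ F K] (B : ProjModel F) (t : Fin (B.N + 1) → Fin n → F)
      (f : Fin r → LaurentR F n) (x : Fin n → K), IsFamilyT b e B t f x →
      (BaseNef b B t f ∨ (¬ FineEmptyR f ∧ FineNef b B t f)) →
      ∃ Y : ProjModel K, Terminal (b + e) Y ∧
        ((Nef (b + e) Y ∧ ((BaseSemiample b B t f ∨ (¬ FineEmptyR f ∧ FineSemiample b B t f)) →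
            Semiample (b + e) Y)) ∨
          (MoriFibre (b + e) Y ∧ FineEmptyR f))) ∧
    (∀ {b n k q r v : ℕ} {N : Fin k → ℕ} {F K : Type} [Field F] [Field K] [Algebra ℂ F]
      [Algebra ℂ K] [Algebra F K] [IsScalarTower ℂ F K] (B : ProjModel F)
      (g : Fin r → MvPolynomial (Coord N) F) (h : Fin q → MvPolynomial (Coord N) F)
      (σ : Fin (B.N + 1) → Fin q → F)
      (G : (j : Fin (B.N + 1)) → Fin r → MvPolynomial (Coord N) (B.ring j))
      (H : (j : Fin (B.N + 1)) → Fin q → MvPolynomial (Coord N) (B.ring j))
      (G0 : Fin r → Poly N) (H0 : Fin q → Poly N) (e : Fin r → Fin k → ℕ) (d : Fin q → Fin k → ℕ)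
      (E : Fin (B.N + 1) → Fin v → F) (x : Coord N → K) (w : Fin v → K) (m : Fin v → ℕ)
      (κ : Fin v → Fin q → ℤ) (γ : Fin v → F),
      (∀ i, IsMulti (g i) (e i)) → (∀ a, IsMulti (h a) (d a)) →
      IsCrossingFamily b B g h σ G H G0 H0 → IsFamilyCover b n B g h d σ E x w m κ γ →
      Nef b B → (∀ a, BundleNef b B σ a) →
      ∃ Y : ProjModel K, Terminal (b + n) Y ∧
        ((Nef (b + n) Y ∧ (Semiample b B → (∀ a, BundleSemiample b B σ a) →
            Semiample (b + n) Y)) ∨
          MoriFibre (b + n) Y)) := by
  refine ⟨?_, ?_⟩
  · intro b e n r F K _ _ _ _ _ _ B t f x h hB
    exact RMX.finalU B t f x h hB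
  · intro b n k q r v N F K _ _ _ _ _ _ B g h σ G H G0 H0 e d E x w m κ γ hg hh hZ hX hB hM
    exact FNC.family B g h σ G H G0 H0 e d E x w m κ γ hg hh hZ hX hB hM

end Pool.Agent.Results.MP_fa3f7f_ag.RelativeMinimalModels
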