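import Pool.Agent.LSQ.Bridge

set_option autoImplicit false

/-!
# MP_fa3f7f_ag: lower semicontinuity of minimal log discrepancies

Let `X` be a normal affine variety of dimension `n`, `G` a finite group of automorphisms of `X` which
fix the closed point `x`, `Y = X / G`, `y` the image of `x`, and `(Y, B', ∏ 𝔟_i^{s_i})` a triple whose
crepant pullback `(X, B, ∏ 𝔞_j^{r_j})` is log canonical at `x`, with `B ≥ 0`. Suppose that every
`g ∈ G` commutes with an effective action of a torus of dimension at least `n - 1` on `X` (the torus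
may depend on `g`) which leaves `B` (near `x`) and the ideals `𝔞_j` invariant. Then

* `mld_y ≤ n`;
* there is a neighbourhood `f ≠ 0` of `y` such that `mld_y ≤ mld_{y'}` for all closed points `y'` of
  this neighbourhood: the function `y' ↦ mld_{y'}` is lower semicontinuous at `y`;
* for all subvarieties `W` of `Y` which meet this neighbourhood (for example all `W` through `y`)
  `mld_y ≤ mld_W + dim W`: the log discrepancy of each divisor over `Y` with centre `W` is at least
  `mld_y - dim W`.

For `G = 1`, `Y = X`, these are all triples with a torus action of complexity at most one, at any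
closed point (`MldX.semicontinuity_of_quot` in `Pool/Agent/LSQ/Cert.lean`).

`T'.mldAlong P` is the minimal log discrepancy along the subvariety with the prime ideal `P`, the
infimum of the log discrepancies of all prime divisors over `Y` whose centre is this subvariety,
`Y.dimAlong P` is the dimension of this subvariety, and `Y.Meets f P` says that it meets the open
subset `f ≠ 0`.
-/

namespace Pool.Agent.Results.MP_fa3f7f_ag.Semicontinuity

open MldX

theorem result {n : ℕ} (X Y : Germ n) (G : Subgroup X.Aut) (π : Map X Y) (T : Triple X)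
    (T' : Triple Y) (hQ : IsQuot G π) (hC : Crepant π T T') (hL : T.LC) (hE : T.Effective)
    (hG : ∀ g ∈ G, ∃ (m : ℕ) (A : TorusAction X m), n ≤ m + 1 ∧ (∀ u, A.MapsTo g u u) ∧
      A.InvTriple T) :
    T'.mldAlong Y.m = T'.mld ∧ T'.mld ≤ n ∧ ∃ f : Y.R, Y.Meets f Y.m ∧
      ∀ P : Ideal Y.R, Y.Meets f P → (P.IsMaximal → T'.mld ≤ T'.mldAlong P) ∧
        ∀ d : ℕ, Y.dimAlong P = d →
          T'.mld ≤ T'.mldAlong P + d ∧ ∀ v, Y.HasCentre v P → T'.mld ≤ T'.disc v + d := by
  obtain ⟨h1, h2, f, hf, h3, h4⟩ := semicontinuity_quot X Y G π T T' hQ hC hL hE hG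
  exact ⟨h1, h2, f, ⟨Y.max.isPrime, hf⟩, fun P hP => ⟨fun hM => h3 P hM hP.2,
    fun d hd => h4 P d hP.1 hP.2 hd⟩⟩

end Pool.Agent.Results.MP_fa3f7f_ag.Semicontinuity
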