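import Pool.Agent.MldX.SGBridge
import Pool.Agent.MldX.G6Asm

set_option autoImplicit false

/-!
# MP_fa3f7f_ag: sharp gaps between minimal log discrepancies, in every dimension

Shokurov reduced the termination of flips, and with it the existence of minimal models, to
conjectures on minimal log discrepancies (the ascending chain condition and semicontinuity). The
theorem below makes the ascending chain condition effective, with optimal constants in every
dimension, for toric pairs and for their quotients by finite groups.

* Below every rational level `p / q` there is an explicit gap for toric pairs `(X, B)` with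
  hyperstandard coefficients at arbitrary closed points, and for the crepant quotients of toric pairs
  by finite groups whose elements normalise a torus.
* Below every integer level `l ≤ n` the optimal bound for standard coefficients is
  `l - 1 / (s - 1)`, where `s` is the term number `n - l + 1` of Sylvester's sequence
  `2, 3, 7, 43, 1807, …` (counted from `0`); for `l = 1` this is `1/2, 5/6, 41/42, 1805/1806, …` in
  the dimensions `1, 2, 3, 4, …`. The same holds for the log quotients of affine space.
* Without boundary the optimal bound below `l` is `l - 1 / h`, `h = freeGap (n - l)`, with the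
  numbers `1, 3, 26, 1518, 3185826, …`; for `l = 1` this is `2/3, 25/26, 1517/1518, …` in the
  dimensions `2, 3, 4, …`.
* For the total minimal log discrepancy (all centres which contain the point) without boundary the
  optimal bound below one is `2/3, 12/13, 462/463` in the dimensions `2, 3, 4`; the same numbers
  `1 - 4 / (s² + 3)` are minimal log discrepancies of isolated quotient singularities in every
  dimension.

The minimal log discrepancies are the geometric ones: the infimum, over all prime divisors over a
normal affine variety with centre the given closed point, of the log discrepancies, which are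
computed from the orders of rational differential forms (`Pool/Agent/MldX/Defs.lean`).
-/

namespace Pool.Agent.Results.MP_fa3f7f_ag.SharpGaps

open MldGap MldX

/-- Gaps between minimal log discrepancies in every dimension: explicit below every rational level,
optimal below every integer level, with boundary and without boundary. -/
theorem result :
    (∀ n p q : ℕ, 0 < n → 0 < p → 0 < q → levelBound n p q < (p : ℝ) / q ∧
      ∀ μ ∈ toricMlds n q ∪ crepantMlds n q, μ < (p : ℝ) / q → μ ≤ levelBound n p q) ∧
    (∀ n l : ℕ, 1 ≤ l → l ≤ n →
      levelBound n l 1 = (l : ℝ) - 1 / ((sylvester (n - l + 1) : ℝ) - 1) ∧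
      ∀ S : Set ℝ, S = toricMlds n 1 ∨ S = crepantMlds n 1 ∨ S = quotientMlds n →
        IsGreatest {μ ∈ S | μ < l} ((l : ℝ) - 1 / ((sylvester (n - l + 1) : ℝ) - 1))) ∧
    (∀ n l : ℕ, 2 ≤ n → 1 ≤ l → l ≤ n →
      ∀ S : Set ℝ, S = toricFreeMlds n ∨ S = quotientFreeMlds n ∨ (S = crepantFreeMlds n ∧ l = 1) →
        IsGreatest {μ ∈ S | μ < l} ((l : ℝ) - 1 / (freeGap (n - l) : ℝ))) ∧
    (∀ n : ℕ, 2 ≤ n → 1 - 4 / ((sylvester (n - 1) : ℝ) ^ 2 + 3) ∈ isolatedQuotientMlds n) ∧
    (∀ n : ℕ, 2 ≤ n → n ≤ 4 →
      ∀ S : Set ℝ, S = toricTotalMlds n ∨ S = quotientTotalMlds n ∨ S = crepantTotalMlds n ∨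
        S = isolatedQuotientMlds n →
        IsGreatest {μ ∈ S | μ < 1} (1 - 4 / ((sylvester (n - 1) : ℝ) ^ 2 + 3))) := by
  refine ⟨fun n p q hn hp hq => ⟨MldGeo.level_lt hp hq, ?_⟩, fun n l hl hln =>
    ⟨levelBound_int n l hl hln, ?_⟩, fun n l hn hl hln => ?_, fun _ hn => isolated_mem hn,
    fun n h2 h4 => ?_⟩
  · rintro μ (hμ | hμ) hlt
    · exact MldG.toric_le hn hp hq (toricMlds_eq n q ▸ hμ) hlt
    · exact crepant_gap hn hp hq hμ hlt
  · rintro S (rfl | rfl | rfl)
    · exact toricMlds_eq n 1 ▸ MldG.toric_greatest hl hln
    · exact crepant_sharp hl hln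
    · exact quotientMlds_eq n ▸ MldG.quotient_greatest hl hln
  · rintro S (rfl | rfl | ⟨rfl, rfl⟩)
    · exact toricFree_sharp hn hl hln
    · exact quotientFree_sharp hn hl hln
    · have := crepantFree_sharp_one (n := n) hn
      rwa [Nat.cast_one]
  · rintro S (rfl | rfl | rfl | rfl)
    · exact toricTotal_greatest h2 h4
    · exact quotientTotal_greatest h2 h4
    · exact crepantTotal_sharp h2 h4
    · exact isolated_greatest h2 h4

end Pool.Agent.Results.MP_fa3f7f_ag.SharpGaps
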